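import Pool.Agent.Q50.MD.Main

/-!
# Traces mod p at more than seven eighths of the places of one Frobenius class decide modularity

Let `ρ`, `σ` be representations of dimension `n ≥ 1` of a finite group over any field, `ρ` absolutely
irreducible on a subgroup `N`. If their traces differ on less than `|N| / (2 n ^ 2)` elements of a coset
`t N`, they are isomorphic on `N`. No hypothesis on the characteristic is made, and `σ` is arbitrary.

Consequences for the weak Serre conjecture over totally real fields `F`. Let `r` be a representation
modulo `p`, `L/F` a finite Galois extension over which it is irreducible, and choose a conjugacy class
of `Gal(L/F)`. Then `r` is modular if and only if some Hilbert eigenform over `F` has the same traces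
modulo `p` at more than `7/8` of the places in this Frobenius class, a set of places whose density can
be arbitrarily small (and more than `7/8` of all places, for `L = F`). For totally odd representations
with non-solvable image it is enough to find the eigenform over the end of a tower of cyclic totally
real extensions; and the conjecture for `p` holds if and only if such eigenforms exist for the
representations, over fields containing a given solvable totally real field, which are unramified
everywhere, trivial on the decomposition groups above `p` and have cyclotomic determinant.
-/

set_option autoImplicit false
set_option linter.ambiguousOpen false

universe u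

namespace Pool.Agent.Results.MP_cab3fc_nt.OneFrobeniusClass

open Pool.Agent.Q50.ES Pool.Agent.Q50.ES.MD
open Pool.Agent.Q50.ES.MS (Mod Good)

/-- **Traces at most places of one Frobenius class.** (0) Two representations of dimension `n` of a finite
group over any field, one of them absolutely irreducible on the subgroup `N`, whose traces differ on
less than `|N| / (2 n ^ 2)` elements of a coset `t N` are isomorphic on `N`. (1) A representation mod
`p` over a totally real field `F`, irreducible over the finite Galois extension `L`, is modular if and
only if an eigenform over `F` has the same traces at more than `7/8` of the places of a given Frobenius
class of `L/F`. (2) A totally odd irreducible representation with non-solvable image is modular if and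
only if this holds over the end of some tower, for some `L` and some class. (3) For every solvable
totally real `M₀`: all totally odd irreducible representations are modular if and only if those over
fields containing `M₀`, with non-solvable image, unramified, trivial above `p` and with cyclotomic
determinant have the property in (2). -/
theorem result :
    (∀ (k : Type u) [Field k], CosetTracesDecide k) ∧
    ∀ (k : Type u) [Field k] (T : MS.Data k), Facts T →
      (∀ F, TotallyReal F → ∀ (r : Mod k F) (L : Fld) (τ : Γ), FiniteGalois F L →
        IrreducibleOver r L → τ ∈ Gal F → (T.Modular r ↔ MatchedIn T F r L τ)) ∧
      (∀ F, TotallyReal F → ∀ r : Mod k F, Good r → ¬ T.Solvable r →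
        (T.Modular r ↔ MatchedOverTower T r)) ∧
      ∀ M₀, TotallyReal M₀ → SolvableGalois M₀ →
        ((∀ F, TotallyReal F → ∀ r : Mod k F, Good r → T.Modular r) ↔
          ∀ F, TotallyReal F → M₀ ≤ F → ∀ r : Mod k F, Good r → ¬ T.Solvable r → T.Simple r →
            MatchedOverTower T r) :=
  ⟨fun k _ => cosetTracesDecide k, fun _ _ _ hT =>
    ⟨fun _ hF r _ _ hL hirr hτ => modular_iff hT hF r hL hirr hτ,
      fun _ hF r hr hs => modular_iff_tower hT hF r hr hs, fun _ hM hG => all_iff hT hM hG⟩⟩

end Pool.Agent.Results.MP_cab3fc_nt.OneFrobeniusClass
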